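import Mathlib
import Pool.Agent.QC.Ker

/-!
# The paraboloid geometry in characteristic 7 (three classes of lines, no triangles, no thetas)
-/

set_option autoImplicit false

namespace Pool.Agent.SCX

variable {K : Type} [Field K]

/-- the multipliers `0, 1, 2` -/
def T3 (K : Type) [Field K] (i : Fin 3) : K := ((i : ℕ) : K)

/-- the line of class `i` through the point `(p, a)`: `p + t_i (a, q(a))` -/
def ell (δ : K) (i : Fin 3) (x : (K × K × K) × (K × K)) : K × K × K :=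
  (x.1.1 + T3 K i * x.2.1, x.1.2.1 + T3 K i * x.2.2,
    x.1.2.2 + T3 K i * (x.2.1 ^ 2 - δ * x.2.2 ^ 2))

theorem T3_inj [CharP K 7] {i j : Fin 3} (h : i ≠ j) : T3 K i - T3 K j ≠ 0 := by
  intro h0
  have h1 : ((i : ℕ) : K) = ((j : ℕ) : K) := sub_eq_zero.mp h0
  rw [CharP.cast_eq_iff_mod_eq K 7] at h1
  apply h
  ext
  have := i.2
  have := j.2
  omega

theorem ell_eq {δ : K} {i : Fin 3} {x y : (K × K × K) × (K × K)} (h : ell δ i x = ell δ i y) :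
    x.1.1 + T3 K i * x.2.1 = y.1.1 + T3 K i * y.2.1 ∧
    x.1.2.1 + T3 K i * x.2.2 = y.1.2.1 + T3 K i * y.2.2 ∧
    x.1.2.2 + T3 K i * (x.2.1 ^ 2 - δ * x.2.2 ^ 2) =
      y.1.2.2 + T3 K i * (y.2.1 ^ 2 - δ * y.2.2 ^ 2) := by
  simp only [ell, Prod.mk.injEq] at h
  exact h

omit [Field K] in
theorem ext5 {x y : (K × K × K) × (K × K)} (h1 : x.1.1 = y.1.1) (h2 : x.1.2.1 = y.1.2.1)
    (h3 : x.1.2.2 = y.1.2.2) (h4 : x.2.1 = y.2.1) (h5 : x.2.2 = y.2.2) : x = y :=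
  Prod.ext (Prod.ext h1 (Prod.ext h2 h3)) (Prod.ext h4 h5)

theorem ell_one [CharP K 7] (δ : K) (x y : (K × K × K) × (K × K)) (i j : Fin 3) (hij : i ≠ j)
    (hi : ell δ i x = ell δ i y) (hj : ell δ j x = ell δ j y) : x = y := by
  obtain ⟨a1, a2, a3⟩ := ell_eq hi
  obtain ⟨b1, b2, b3⟩ := ell_eq hj
  have ht := T3_inj (K := K) hij
  have e1 : x.2.1 = y.2.1 := by
    apply sub_eq_zero.mp
    apply (mul_eq_zero.mp _).resolve_left ht
    linear_combination a1 - b1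
  have e2 : x.2.2 = y.2.2 := by
    apply sub_eq_zero.mp
    apply (mul_eq_zero.mp _).resolve_left ht
    linear_combination a2 - b2
  rw [e1] at a1 a3
  rw [e2] at a2 a3
  exact ext5 (add_right_cancel a1) (add_right_cancel a2) (add_right_cancel a3) e1 e2

theorem ell_tri [CharP K 7] (δ : K) (hδ : ∀ a b : K, a ^ 2 - δ * b ^ 2 = 0 → a = 0 ∧ b = 0)
    (x y z : (K × K × K) × (K × K)) (i j k : Fin 3) (hij : i ≠ j) (hjk : j ≠ k) (hki : k ≠ i)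
    (hi : ell δ i x = ell δ i y) (hj : ell δ j y = ell δ j z) (hk : ell δ k z = ell δ k x) :
    x = y := by
  obtain ⟨a1, a2, a3⟩ := ell_eq hi
  obtain ⟨b1, b2, b3⟩ := ell_eq hj
  obtain ⟨c1, c2, c3⟩ := ell_eq hk
  have hA : T3 K i - T3 K k ≠ 0 := T3_inj hki.symm
  have hB : T3 K j - T3 K i ≠ 0 := T3_inj hij.symm
  have hAB : T3 K j - T3 K k ≠ 0 := T3_inj hjk
  set A := T3 K i - T3 K k with hAdef
  set B := T3 K j - T3 K i with hBdef
  have s1 : A * (x.2.1 - z.2.1) + B * (y.2.1 - z.2.1) = 0 := by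
    rw [hAdef, hBdef]; linear_combination a1 + b1 + c1
  have s2 : A * (x.2.2 - z.2.2) + B * (y.2.2 - z.2.2) = 0 := by
    rw [hAdef, hBdef]; linear_combination a2 + b2 + c2
  have s3 : A * ((x.2.1 ^ 2 - δ * x.2.2 ^ 2) - (z.2.1 ^ 2 - δ * z.2.2 ^ 2)) +
      B * ((y.2.1 ^ 2 - δ * y.2.2 ^ 2) - (z.2.1 ^ 2 - δ * z.2.2 ^ 2)) = 0 := by
    rw [hAdef, hBdef]; linear_combination a3 + b3 + c3
  have hq : (A * (A + B)) * ((x.2.1 - z.2.1) ^ 2 - δ * (x.2.2 - z.2.2) ^ 2) = 0 := by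
    have h1 : (B * (y.2.1 - z.2.1)) ^ 2 = (A * (x.2.1 - z.2.1)) ^ 2 := by
      have : B * (y.2.1 - z.2.1) = -(A * (x.2.1 - z.2.1)) := by linear_combination s1
      rw [this]; ring
    have h2 : (B * (y.2.2 - z.2.2)) ^ 2 = (A * (x.2.2 - z.2.2)) ^ 2 := by
      have : B * (y.2.2 - z.2.2) = -(A * (x.2.2 - z.2.2)) := by linear_combination s2
      rw [this]; ring
    linear_combination B * s3 - 2 * B * z.2.1 * s1 + 2 * δ * B * z.2.2 * s2 - h1 + δ * h2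
  have hAB' : A + B ≠ 0 := by
    rw [hAdef, hBdef]
    intro h
    apply hAB
    linear_combination h
  obtain ⟨e1, e2⟩ := hδ _ _ ((mul_eq_zero.mp hq).resolve_left (mul_ne_zero hA hAB'))
  have f1 : y.2.1 - z.2.1 = 0 := by
    apply (mul_eq_zero.mp _).resolve_left hB
    linear_combination s1 - A * e1
  have f2 : y.2.2 - z.2.2 = 0 := by
    apply (mul_eq_zero.mp _).resolve_left hB
    linear_combination s2 - A * e2
  have g1 : x.2.1 = y.2.1 := by linear_combination e1 - f1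
  have g2 : x.2.2 = y.2.2 := by linear_combination e2 - f2
  rw [g1] at a1 a3
  rw [g2] at a2 a3
  exact ext5 (add_right_cancel a1) (add_right_cancel a2) (add_right_cancel a3) g1 g2

/-- the matching equation -/
theorem ell_meq (δ : K) (x y z : (K × K × K) × (K × K)) (i j : Fin 3) 
    (hi : ell δ i z = ell δ i x) (hj : ell δ j z = ell δ j y) :
    ((y.1.1 - x.1.1) ^ 2 - δ * (y.1.2.1 - x.1.2.1) ^ 2) +
      2 * T3 K j * ((y.1.1 - x.1.1) * (y.2.1 - x.2.1) -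
        δ * ((y.1.2.1 - x.1.2.1) * (y.2.2 - x.2.2))) +
      T3 K i * T3 K j * ((y.2.1 - x.2.1) ^ 2 - δ * (y.2.2 - x.2.2) ^ 2) +
      (T3 K j - T3 K i) * (2 * (x.2.1 * (y.1.1 - x.1.1) - δ * (x.2.2 * (y.1.2.1 - x.1.2.1))) -
        (y.1.2.2 - x.1.2.2)) = 0 := by
  obtain ⟨a1, a2, a3⟩ := ell_eq hi
  obtain ⟨b1, b2, b3⟩ := ell_eq hj
  set τ := T3 K j - T3 K i with hτ
  have s1 : τ * (z.2.1 - x.2.1) = (y.1.1 - x.1.1) + T3 K j * (y.2.1 - x.2.1) := by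
    rw [hτ]; linear_combination b1 - a1
  have s2 : τ * (z.2.2 - x.2.2) = (y.1.2.1 - x.1.2.1) + T3 K j * (y.2.2 - x.2.2) := by
    rw [hτ]; linear_combination b2 - a2
  have s3 : τ * ((z.2.1 ^ 2 - δ * z.2.2 ^ 2) - (x.2.1 ^ 2 - δ * x.2.2 ^ 2)) =
      (y.1.2.2 - x.1.2.2) + T3 K j * ((y.2.1 ^ 2 - δ * y.2.2 ^ 2) - (x.2.1 ^ 2 - δ * x.2.2 ^ 2)) := by
    rw [hτ]; linear_combination b3 - a3
  have h1 : (τ * (z.2.1 - x.2.1)) ^ 2 = ((y.1.1 - x.1.1) + T3 K j * (y.2.1 - x.2.1)) ^ 2 := by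
    rw [s1]
  have h2 : (τ * (z.2.2 - x.2.2)) ^ 2 = ((y.1.2.1 - x.1.2.1) + T3 K j * (y.2.2 - x.2.2)) ^ 2 := by
    rw [s2]
  have h3 : T3 K i = T3 K j - τ := by rw [hτ]; ring
  rw [h3]
  linear_combination τ * s3 - 2 * τ * x.2.1 * s1 + 2 * δ * τ * x.2.2 * s2 - h1 + δ * h2

end Pool.Agent.SCX
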