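import Mathlib
import Pool.Agent.SCX.ThA

/-!
# The paraboloid geometry in characteristic 7: no thetas, and the code
-/

set_option autoImplicit false

namespace Pool.Agent.SCX

variable {K : Type} [Field K]

theorem cyc7 [CharP K 7] {δ : K} (hδ : ∀ a b : K, a ^ 2 - δ * b ^ 2 = 0 → a = 0 ∧ b = 0)
    {d1 d2 e1 e2 ς : K} (u v w : K) (hu : u = d1 ^ 2 - δ * d2 ^ 2)
    (hv : v = d1 * e1 - δ * (d2 * e2)) (hw : w = e1 ^ 2 - δ * e2 ^ 2)
    (h1 : 4 * v = -3 * u) (h2 : 4 * w = 3 * u) (h3 : u = 2 * ς ∨ u = ς) :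
    d1 = 0 ∧ d2 = 0 ∧ e1 = 0 ∧ e2 = 0 ∧ ς = 0 := by
  have h7 : (7 : K) = 0 := by exact_mod_cast CharP.cast_eq_zero K 7
  have hvu : v = u := by linear_combination 2 * h1 - (v + u) * h7
  have hwu : w = -u := by linear_combination 2 * h2 + (u - w) * h7
  have q4 : (d1 + 4 * e1) ^ 2 - δ * (d2 + 4 * e2) ^ 2 = 0 := by
    linear_combination -hu - 8 * hv - 16 * hw + 8 * hvu + 16 * hwu - u * h7
  have q5 : (d1 + 5 * e1) ^ 2 - δ * (d2 + 5 * e2) ^ 2 = 0 := by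
    linear_combination -hu - 10 * hv - 25 * hw + 10 * hvu + 25 * hwu - 2 * u * h7
  obtain ⟨a1, a2⟩ := hδ _ _ q4
  obtain ⟨b1, b2⟩ := hδ _ _ q5
  have he1 : e1 = 0 := by linear_combination b1 - a1
  have he2 : e2 = 0 := by linear_combination b2 - a2
  have hd1 : d1 = 0 := by linear_combination a1 - 4 * he1
  have hd2 : d2 = 0 := by linear_combination a2 - 4 * he2
  have hu0 : u = 0 := by rw [hu, hd1, hd2]; ring
  have h2K : (2 : K) ≠ 0 := by
    intro h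
    have h1 : (1 : K) = 0 := by linear_combination h7 - 3 * h
    exact one_ne_zero h1
  refine ⟨hd1, hd2, he1, he2, ?_⟩
  rcases h3 with h3 | h3
  · apply (mul_eq_zero.mp _).resolve_left h2K
    linear_combination hu0 - h3
  · linear_combination hu0 - h3

theorem ell_theta [CharP K 7] (δ : K) (hδ : ∀ a b : K, a ^ 2 - δ * b ^ 2 = 0 → a = 0 ∧ b = 0)
    (x y : (K × K × K) × (K × K)) (hxy : ∀ i, ell δ i x ≠ ell δ i y)
    (σ : Equiv.Perm (Fin 3)) :
    ¬ ∀ i, ∃ p, ell δ i p = ell δ i x ∧ ell δ (σ i) p = ell δ (σ i) y := by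
  intro h
  have hne : ∀ i, σ i ≠ i := by
    intro i hi
    obtain ⟨p, hp1, hp2⟩ := h i
    rw [hi] at hp2
    exact hxy i (hp1.symm.trans hp2)
  have hcases : (σ 0 = 1 ∧ σ 1 = 2 ∧ σ 2 = 0) ∨ (σ 0 = 2 ∧ σ 1 = 0 ∧ σ 2 = 1) := by
    have key : ∀ a b c : Fin 3, a ≠ 0 → b ≠ 1 → c ≠ 2 → a ≠ b → b ≠ c → a ≠ c →
        (a = 1 ∧ b = 2 ∧ c = 0) ∨ (a = 2 ∧ b = 0 ∧ c = 1) := by decide
    exact key _ _ _ (hne 0) (hne 1) (hne 2) (fun e => by simpa using σ.injective e)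
      (fun e => by simpa using σ.injective e) (fun e => by simpa using σ.injective e)
  have ht0 : T3 K 0 = 0 := by simp [T3]
  have ht1 : T3 K 1 = 1 := by simp [T3]
  have ht2 : T3 K 2 = 2 := by simp [T3]
  have main : y.1.1 - x.1.1 = 0 ∧ y.1.2.1 - x.1.2.1 = 0 ∧ y.2.1 - x.2.1 = 0 ∧
      y.2.2 - x.2.2 = 0 ∧
      (2 * (x.2.1 * (y.1.1 - x.1.1) - δ * (x.2.2 * (y.1.2.1 - x.1.2.1))) -
        (y.1.2.2 - x.1.2.2)) = 0 := by
    rcases hcases with ⟨s0, s1, s2⟩ | ⟨s0, s1, s2⟩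
    · obtain ⟨z0, a0, b0⟩ := h 0
      obtain ⟨z1, a1, b1⟩ := h 1
      obtain ⟨z2, a2, b2⟩ := h 2
      rw [s0] at b0
      rw [s1] at b1
      rw [s2] at b2
      have m0 := ell_meq δ x y z0 0 1 a0 b0
      have m1 := ell_meq δ x y z1 1 2 a1 b1
      have m2 := ell_meq δ x y z2 2 0 a2 b2
      rw [ht0, ht1] at m0
      rw [ht1, ht2] at m1
      rw [ht2, ht0] at m2
      refine cyc7 hδ _ _ _ rfl rfl rfl ?_ ?_ (Or.inl ?_)
      · linear_combination 2 * m0 + m2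
      · linear_combination 2 * m1 - 4 * m0 - m2
      · linear_combination m2
    · obtain ⟨z0, a0, b0⟩ := h 0
      obtain ⟨z1, a1, b1⟩ := h 1
      obtain ⟨z2, a2, b2⟩ := h 2
      rw [s0] at b0
      rw [s1] at b1
      rw [s2] at b2
      have m0 := ell_meq δ x y z0 0 2 a0 b0
      have m1 := ell_meq δ x y z1 1 0 a1 b1
      have m2 := ell_meq δ x y z2 2 1 a2 b2
      rw [ht0, ht2] at m0
      rw [ht1, ht0] at m1
      rw [ht2, ht1] at m2
      refine cyc7 hδ _ _ _ rfl rfl rfl ?_ ?_ (Or.inr ?_)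
      · linear_combination m0 + 2 * m1
      · linear_combination 2 * m2 - m0 - 4 * m1
      · linear_combination m1
  obtain ⟨h1, h2, h3, h4, h5⟩ := main
  apply hxy 0
  have e : x = y := by
    apply ext5
    · linear_combination -h1
    · linear_combination -h2
    · rw [h1, h2] at h5
      linear_combination h5
    · linear_combination -h3
    · linear_combination -h4
  rw [e]

theorem ell_geom [CharP K 7] (δ : K) (hδ : ∀ a b : K, a ^ 2 - δ * b ^ 2 = 0 → a = 0 ∧ b = 0) :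
    QC.Geom (ell δ) :=
  ⟨ell_one δ, ell_tri δ hδ, ell_theta δ hδ⟩

theorem exists_aniso (K : Type) [Field K] [Finite K] [CharP K 7] :
    ∃ δ : K, ∀ a b : K, a ^ 2 - δ * b ^ 2 = 0 → a = 0 ∧ b = 0 := by
  have h2 : ringChar K ≠ 2 := by
    rw [ringChar.eq K 7]; norm_num
  obtain ⟨δ, hδ⟩ := FiniteField.exists_nonsquare h2
  refine ⟨δ, fun a b hab => ?_⟩
  by_cases hb : b = 0
  · subst hb
    refine ⟨?_, rfl⟩
    have : a ^ 2 = 0 := by linear_combination hab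
    exact pow_eq_zero_iff (two_ne_zero) |>.mp this
  · exfalso
    apply hδ
    refine ⟨a / b, ?_⟩
    field_simp
    linear_combination -hab

theorem code7 (K : Type) [Field K] [Fintype K] [CharP K 7] :
    ∃ S : Finset (EuclideanSpace ℝ (Fin (3 * Fintype.card K ^ 3))),
      S.card = Fintype.card K ^ 5 ∧ (∀ x ∈ S, ‖x‖ = 1) ∧
      (∀ x ∈ S, ∀ y ∈ S, x ≠ y → (inner ℝ x y < 0 ∨ inner ℝ x y = 1 / 3)) := by
  obtain ⟨δ, hδ⟩ := exists_aniso K
  have h := QC.exists_code (m := 3) (by norm_num) (ell δ) (ell_geom δ hδ)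
  have e1 : Fintype.card (K × K × K) = Fintype.card K ^ 3 := by
    simp only [Fintype.card_prod]; ring
  have e2 : Fintype.card ((K × K × K) × (K × K)) = Fintype.card K ^ 5 := by
    simp only [Fintype.card_prod]; ring
  rw [e1, e2] at h
  obtain ⟨S, h1, h2, h3⟩ := h
  exact ⟨S, h1, h2, fun x hx y hy hne => by simpa using h3 x hx y hy hne⟩

theorem code7r (r : ℕ) (hr : r ≠ 0) :
    ∃ S : Finset (EuclideanSpace ℝ (Fin (3 * (7 ^ r) ^ 3))),
      S.card = (7 ^ r) ^ 5 ∧ (∀ x ∈ S, ‖x‖ = 1) ∧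
      (∀ x ∈ S, ∀ y ∈ S, x ≠ y → (inner ℝ x y < 0 ∨ inner ℝ x y = 1 / 3)) := by
  have : Fact (Nat.Prime 7) := ⟨by norm_num⟩
  let _ : Fintype (GaloisField 7 r) := Fintype.ofFinite _
  have hc : Fintype.card (GaloisField 7 r) = 7 ^ r := by
    rw [← Nat.card_eq_fintype_card]; exact GaloisField.card 7 r hr
  have h := code7 (GaloisField 7 r)
  rw [hc] at h
  exact h

end Pool.Agent.SCX
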