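import Mathlib
import Pool.Agent.SCX.ThB
import Pool.Agent.Helper17.Sph.Lower

/-!
# `α = 1/3`: codes with `c d^(5/3)` points in every dimension
-/

set_option autoImplicit false

namespace Pool.Agent.SCX

theorem parC (d : ℕ) (hd : 1 ≤ d) :
    (1 / 1029 ^ 2 : ℝ) * (d : ℝ) ^ (5 / 3 : ℝ) ≤ 1 ∨
    ∃ r : ℕ, r ≠ 0 ∧ 3 * (7 ^ r) ^ 3 ≤ d ∧
      (1 / 1029 ^ 2 : ℝ) * (d : ℝ) ^ (5 / 3 : ℝ) ≤ (((7 ^ r) ^ 5 : ℕ) : ℝ) := by
  have key : ∀ y : ℝ, 1 ≤ y → (d : ℝ) ≤ 1029 * y ^ 3 →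
      (1 / 1029 ^ 2 : ℝ) * (d : ℝ) ^ (5 / 3 : ℝ) ≤ y ^ 5 := by
    intro y hy hdy
    have hy0 : 0 ≤ y := by linarith
    have h1 : (d : ℝ) ^ (5 / 3 : ℝ) ≤ (1029 * y ^ 3) ^ (5 / 3 : ℝ) :=
      Real.rpow_le_rpow (by positivity) hdy (by norm_num)
    have h2 : (1029 * y ^ 3 : ℝ) ^ (5 / 3 : ℝ) = (1029 : ℝ) ^ (5 / 3 : ℝ) * y ^ 5 := by
      rw [Real.mul_rpow (by norm_num) (by positivity), ← Real.rpow_natCast, ← Real.rpow_mul hy0,
        ← Real.rpow_natCast y 5]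
      congr 2
      norm_num
    have h3 : (1029 : ℝ) ^ (5 / 3 : ℝ) ≤ 1029 ^ 2 := by
      rw [← Real.rpow_natCast]
      exact Real.rpow_le_rpow_of_exponent_le (by norm_num) (by norm_num)
    have h4 : (0 : ℝ) ≤ y ^ 5 := by positivity
    calc (1 / 1029 ^ 2 : ℝ) * (d : ℝ) ^ (5 / 3 : ℝ)
        ≤ (1 / 1029 ^ 2 : ℝ) * ((1029 : ℝ) ^ 2 * y ^ 5) := by
          apply mul_le_mul_of_nonneg_left _ (by norm_num)
          rw [h2] at h1
          exact h1.trans (mul_le_mul_of_nonneg_right h3 h4)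
      _ = y ^ 5 := by ring
  have hex : ∃ r : ℕ, d < 3 * (7 ^ (r + 1)) ^ 3 := by
    refine ⟨d, ?_⟩
    have h1 : d < 7 ^ d := Nat.lt_pow_self (by norm_num)
    calc d < 7 ^ d := h1
      _ ≤ 7 ^ (d + 1) := Nat.pow_le_pow_right (by norm_num) (by omega)
      _ ≤ (7 ^ (d + 1)) ^ 3 := Nat.le_self_pow (by norm_num) _
      _ ≤ 3 * (7 ^ (d + 1)) ^ 3 := by omega
  have hspec := Nat.find_spec hex
  rcases Nat.eq_zero_or_pos (Nat.find hex) with h0 | h0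
  · left
    rw [h0] at hspec
    have := key 1 le_rfl (by
      have h5 : d ≤ 1029 := by norm_num at hspec; omega
      have h6 : (d : ℝ) ≤ 1029 := by exact_mod_cast h5
      simpa using h6)
    simpa using this
  · right
    refine ⟨Nat.find hex, h0.ne', ?_, ?_⟩
    · have := Nat.find_min hex (Nat.sub_lt h0 one_pos)
      have e : Nat.find hex - 1 + 1 = Nat.find hex := Nat.sub_add_cancel h0
      rw [e] at this
      exact not_lt.mp this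
    · have h5 : d ≤ 1029 * (7 ^ Nat.find hex) ^ 3 := by
        have e : 3 * (7 ^ (Nat.find hex + 1)) ^ 3 = 1029 * (7 ^ Nat.find hex) ^ 3 := by
          rw [pow_succ]; ring
        rw [e] at hspec
        exact hspec.le
      have h6 : (d : ℝ) ≤ 1029 * ((7 : ℝ) ^ Nat.find hex) ^ 3 := by exact_mod_cast h5
      have := key ((7 : ℝ) ^ Nat.find hex) (one_le_pow₀ (by norm_num)) h6
      push_cast
      exact this

/-- `{negative or 1/3}`-codes with at least `c d^(5/3)` points in every dimension `d ≥ 1` -/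
theorem third : ∃ c : ℝ, 0 < c ∧ ∀ d : ℕ, 1 ≤ d →
    ∃ S : Finset (EuclideanSpace ℝ (Fin d)), c * (d : ℝ) ^ (5 / 3 : ℝ) ≤ S.card ∧
      (∀ x ∈ S, ‖x‖ = 1) ∧
      (∀ x ∈ S, ∀ y ∈ S, x ≠ y → (inner ℝ x y < 0 ∨ inner ℝ x y = 1 / 3)) := by
  refine ⟨1 / 1029 ^ 2, by norm_num, fun d hd => ?_⟩
  rcases parC d hd with h | ⟨r, hr, h1, h2⟩
  · refine ⟨{EuclideanSpace.single (⟨0, hd⟩ : Fin d) (1 : ℝ)}, ?_, ?_, ?_⟩
    · simpa using h
    · intro x hx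
      rw [Finset.mem_singleton] at hx
      subst hx
      simp
    · intro x hx y hy hne
      rw [Finset.mem_singleton] at hx hy
      exact absurd (hx.trans hy.symm) hne
  · obtain ⟨S0, c1, c2, c3⟩ := code7r r hr
    obtain ⟨S, e1, e2, e3⟩ := Pool.Agent.Helper17.Sph.embed h1 (1 / 3 : ℝ) S0 c2 c3
    refine ⟨S, ?_, e2, e3⟩
    rw [e1, c1]
    exact h2

end Pool.Agent.SCX
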